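import Mathlib
import Pool.Agent.H256.KS.Model

set_option autoImplicit false
set_option linter.unusedSectionVars false

/-!
# Kadison-Kastler stability of crossed products (MP_5c1ef7_an, Q1: yes)

There is one universal `δ > 0` such that the following holds for every probability measure
preserving action of a group `Γ` on a probability space `(X, μ)` for which `L^∞(X, μ)` is maximal
abelian in `L^∞(X, μ) ⋊ Γ`.  If `M` is a II₁ factor on a Hilbert space `H` that is *-isomorphic to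
`L^∞(X, μ) ⋊ Γ`, and `N` is a II₁ factor on `H` with Kadison-Kastler distance `d(M, N) < δ`, then `N`
is *-isomorphic to `M`.

No hypothesis on the comparison map from bounded cohomology, no uniqueness of the Cartan masa, no
countability of `Γ` and no standardness of `X` is used, so the answer to Q1 is yes, with a `δ` that
does not depend on `M`.

Definitions.
* `IsII1Factor M`: `M` has trivial centre, is infinite dimensional and has a faithful normal tracial
  state.  The normal states of `M ⊆ B(H)` are the functionals `x ↦ ∑ₖ ⟪ξₖ, x ξₖ⟫` with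
  `∑ₖ ‖ξₖ‖² = 1`.
* `kkDist M N`: the Hausdorff distance, in operator norm, of the closed unit balls.
* `IsRegularSpace μ e`: the Hilbert space `K` is `ℓ²(Γ, L²(X, μ))`, with `e h f = δ_h ⊗ f`.  (These are
  the inner products of the vectors `δ_h ⊗ f`, and the fact that they span a dense subspace.  The
  axioms determine `(K, e)` up to a unique unitary, and `exists_crossedProduct` below shows that
  they hold for the concrete `lp (fun _ : Γ => Lp ℂ 2 μ) 2`.)
* `LInfty μ e`: the operators `π(F) (δ_h ⊗ f) = δ_h ⊗ α_{h⁻¹}(F) f` for bounded measurable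
  `F : X → ℂ`, where `α_g(F)(x) = F(g⁻¹ x)`, so `α_{h⁻¹}(F)(x) = F(h x)`: the usual copy of
  `L^∞(X, μ)` in the crossed product.
* `Translations μ e`: the operators `λ_g (δ_h ⊗ f) = δ_{gh} ⊗ f`, `g ∈ Γ`; so
  `λ_g π(F) λ_g⋆ = π(α_g(F))`.
* `IsGenerated S M`: `M` is the smallest von Neumann algebra containing `S`.
* `IsCrossedProduct μ e M₀`: `M₀` is generated by `LInfty μ e` and `Translations μ e`.
* `IsMaximalAbelian A M`: every element of `M` that commutes with `A` lies in `A`.  (A Cartan masa is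
  maximal abelian; in a crossed product the copy of `L^∞(X, μ)` is Cartan as soon as it is maximal
  abelian, as it and the `λ_g` normalize it.)
* `StarIsomorphic M N`: there is a *-isomorphism from `M` onto `N`.
-/

open MeasureTheory
open scoped InnerProductSpace ENNReal

namespace Pool.Agent.Results.MP_5c1ef7_an.CrossedProductStability

section factors

variable {H : Type} [NormedAddCommGroup H] [InnerProductSpace ℂ H] [CompleteSpace H]

/-- The functional `x ↦ ∑ₖ ⟪ξₖ, x ξₖ⟫` on `B(H)`. -/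
noncomputable def vectorFunctional (ξ : ℕ → H) (x : H →L[ℂ] H) : ℂ := ∑' k, ⟪ξ k, x (ξ k)⟫_ℂ

/-- `M` is a II₁ factor: its centre is trivial, it is infinite dimensional and it has a faithful
normal tracial state. -/
structure IsII1Factor (M : VonNeumannAlgebra H) : Prop where
  factor : ∀ z ∈ M, (∀ a ∈ M, z * a = a * z) → ∃ c : ℂ, z = c • 1
  infinite : ¬ FiniteDimensional ℂ M.toStarSubalgebra
  trace : ∃ ξ : ℕ → H, Summable (fun k => ‖ξ k‖ ^ 2) ∧ vectorFunctional ξ 1 = 1 ∧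
    (∀ a ∈ M, ∀ b ∈ M, vectorFunctional ξ (a * b) = vectorFunctional ξ (b * a)) ∧
    ∀ a ∈ M, vectorFunctional ξ (star a * a) = 0 → a = 0

/-- The closed unit ball of `M`. -/
def unitBall (M : VonNeumannAlgebra H) : Set (H →L[ℂ] H) := {x | x ∈ M ∧ ‖x‖ ≤ 1}

/-- The Kadison-Kastler distance. -/
noncomputable def kkDist (M N : VonNeumannAlgebra H) : ℝ :=
  Metric.hausdorffDist (unitBall M) (unitBall N)

/-- `M` is the von Neumann algebra generated by `S`. -/
def IsGenerated (S : Set (H →L[ℂ] H)) (M : VonNeumannAlgebra H) : Prop :=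
  (∀ x ∈ S, x ∈ M) ∧ ∀ M' : VonNeumannAlgebra H, (∀ x ∈ S, x ∈ M') → ∀ x ∈ M, x ∈ M'

/-- Every element of `M` that commutes with `A` lies in `A`. -/
def IsMaximalAbelian (A : Set (H →L[ℂ] H)) (M : VonNeumannAlgebra H) : Prop :=
  ∀ x ∈ M, (∀ a ∈ A, a * x = x * a) → x ∈ A

/-- `M` and `N` are *-isomorphic. -/
def StarIsomorphic {K H : Type} [NormedAddCommGroup K] [InnerProductSpace ℂ K] [CompleteSpace K]
    [NormedAddCommGroup H] [InnerProductSpace ℂ H] [CompleteSpace H]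
    (M : VonNeumannAlgebra K) (N : VonNeumannAlgebra H) : Prop :=
  Nonempty (M.toStarSubalgebra ≃⋆ₐ[ℂ] N.toStarSubalgebra)

end factors

section crossed

variable {X : Type} [MeasurableSpace X] (μ : Measure X) {Γ : Type} {K : Type}
  [NormedAddCommGroup K] [InnerProductSpace ℂ K] [CompleteSpace K]

/-- `K` is the Hilbert space `ℓ²(Γ, L²(X, μ))`, and `e h f ∈ K`, for `h ∈ Γ` and square integrable
`f : X → ℂ`, is the vector `δ_h ⊗ f`. -/
structure IsRegularSpace (e : Γ → (X → ℂ) → K) : Prop where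
  inner_same : ∀ (h : Γ) (f₁ f₂ : X → ℂ), MemLp f₁ 2 μ → MemLp f₂ 2 μ →
    ⟪e h f₁, e h f₂⟫_ℂ = ∫ x, star (f₁ x) * f₂ x ∂μ
  inner_ne : ∀ (g h : Γ) (f₁ f₂ : X → ℂ), g ≠ h → MemLp f₁ 2 μ → MemLp f₂ 2 μ →
    ⟪e g f₁, e h f₂⟫_ℂ = 0
  total : ∀ v : K, (∀ (h : Γ) (f : X → ℂ), MemLp f 2 μ → ⟪e h f, v⟫_ℂ = 0) → v = 0

variable [Group Γ]

/-- The copy of `L^∞(X, μ)`: the operators `δ_h ⊗ f ↦ δ_h ⊗ F(h ·) f` for bounded measurable `F`. -/
def LInfty [MulAction Γ X] (e : Γ → (X → ℂ) → K) : Set (K →L[ℂ] K) :=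
  {T | ∃ F : X → ℂ, Measurable F ∧ (∃ C : ℝ, ∀ x, ‖F x‖ ≤ C) ∧
    ∀ (h : Γ) (f : X → ℂ), MemLp f 2 μ → T (e h f) = e h (fun x => F (h • x) * f x)}

/-- The copy of `Γ`: the operators `δ_h ⊗ f ↦ δ_{gh} ⊗ f`, `g ∈ Γ`. -/
def Translations (e : Γ → (X → ℂ) → K) : Set (K →L[ℂ] K) :=
  {T | ∃ g : Γ, ∀ (h : Γ) (f : X → ℂ), MemLp f 2 μ → T (e h f) = e (g * h) f}

/-- `M₀` is the crossed product `L^∞(X, μ) ⋊ Γ`: the von Neumann algebra on `ℓ²(Γ, L²(X, μ))` generated
by the copies of `L^∞(X, μ)` and `Γ`. -/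
def IsCrossedProduct [MulAction Γ X] (e : Γ → (X → ℂ) → K) (M₀ : VonNeumannAlgebra K) : Prop :=
  IsGenerated (LInfty μ e ∪ Translations μ e) M₀

end crossed

section bridge

open Pool.Agent.TH254.CC Pool.Agent.H256.KS

variable {H : Type} [NormedAddCommGroup H] [InnerProductSpace ℂ H] [CompleteSpace H]

theorem near_of_dist {M N : VonNeumannAlgebra H} {δ : ℝ} (h : kkDist M N < δ) : Near M N δ := by
  have hne : ∀ W : VonNeumannAlgebra H, (unitBall W).Nonempty := fun W =>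
    ⟨0, zero_mem W, by rw [norm_zero]; exact zero_le_one⟩
  have hbd : ∀ W : VonNeumannAlgebra H, Bornology.IsBounded (unitBall W) := by
    intro W
    refine (Metric.isBounded_closedBall (x := (0 : H →L[ℂ] H)) (r := 1)).subset ?_
    intro x hx
    rw [Metric.mem_closedBall, dist_zero_right]
    exact hx.2
  have hfin := Metric.hausdorffEDist_ne_top_of_nonempty_of_bounded (hne M) (hne N) (hbd M) (hbd N)
  intro x hx
  by_cases h0 : x = 0
  · refine ⟨0, zero_mem N, ?_⟩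
    rw [h0, sub_zero, norm_zero, mul_zero]
  have hn : 0 < ‖x‖ := norm_pos_iff.mpr h0
  have h1 : ((‖x‖⁻¹ : ℝ) : ℂ) • x ∈ unitBall M := by
    refine ⟨vn_smul M _ hx, ?_⟩
    rw [norm_smul, Complex.norm_real, Real.norm_eq_abs, abs_of_pos (inv_pos.mpr hn),
      inv_mul_cancel₀ hn.ne']
  obtain ⟨y, hy, hxy⟩ := Metric.exists_dist_lt_of_hausdorffDist_lt h1 h hfin
  refine ⟨((‖x‖ : ℝ) : ℂ) • y, vn_smul N _ hy.1, ?_⟩
  rw [dist_eq_norm] at hxy
  have e1 : x - ((‖x‖ : ℝ) : ℂ) • y = ((‖x‖ : ℝ) : ℂ) • (((‖x‖⁻¹ : ℝ) : ℂ) • x - y) := by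
    rw [smul_sub, smul_smul, ← Complex.ofReal_mul, mul_inv_cancel₀ hn.ne', Complex.ofReal_one,
      one_smul]
  rw [e1, norm_smul, Complex.norm_real, Real.norm_eq_abs, abs_of_pos hn, mul_comm]
  exact mul_le_mul_of_nonneg_right hxy.le hn.le

/-- The definitions are not vacuous: `ℓ²(Γ, L²(X, μ))` is a regular space, and the crossed product on
it exists (for every measurable action). -/
theorem exists_crossedProduct {X : Type} [MeasurableSpace X] (μ : Measure X) {Γ : Type} [Group Γ]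
    [MulAction Γ X] (hm : ∀ g : Γ, Measurable fun x : X => g • x) :
    ∃ (e : Γ → (X → ℂ) → lp (fun _ : Γ => Lp ℂ 2 μ) 2)
      (M₀ : VonNeumannAlgebra (lp (fun _ : Γ => Lp ℂ 2 μ) 2)),
      IsRegularSpace μ e ∧ IsCrossedProduct μ e M₀ := by
  classical
  obtain ⟨e, he⟩ : ∃ e : Γ → (X → ℂ) → lp (fun _ : Γ => Lp ℂ 2 μ) 2,
      ∀ (h : Γ) (f : X → ℂ) (hf : MemLp f 2 μ), e h f = e0 μ h f hf :=
    ⟨fun h f => if hf : MemLp f 2 μ then e0 μ h f hf else 0, fun h f hf => by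
      simp only [dif_pos hf]⟩
  have hreg : IsRegularSpace μ e := by
    refine ⟨fun h f₁ f₂ h₁ h₂ => ?_, fun g h f₁ f₂ hgh h₁ h₂ => ?_, fun v hv => ?_⟩
    · rw [he _ _ h₁, he _ _ h₂, e0_inner_same]
    · rw [he _ _ h₁, he _ _ h₂, e0_inner_ne hgh]
    · refine e0_total v fun h f hf => ?_
      rw [← he h f hf]
      exact hv h f hf
  refine ⟨e, dcV (LInfty μ e ∪ Translations μ e), hreg, ?_⟩
  have hL : ∀ T ∈ LInfty μ e, T ∈ Linf μ Γ := by
    rintro T ⟨F, hF, ⟨B, hB⟩, hT⟩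
    obtain ⟨T', hT'⟩ := exists_mul μ Γ hm F hF ⟨B, hB⟩
    have h1 : T = T' := by
      refine model_ext fun k f hf => ?_
      obtain ⟨hf', h2⟩ := isMul_e0 hm hF hB hT' k f hf
      rw [h2, ← he k f hf, hT k f hf, he k _ hf']
    rw [h1]
    exact ⟨F, hF, ⟨B, hB⟩, hT'⟩
  have hL' : ∀ T ∈ Linf μ Γ, T ∈ LInfty μ e := by
    rintro T ⟨F, hF, ⟨B, hB⟩, hT⟩
    refine ⟨F, hF, ⟨B, hB⟩, fun h f hf => ?_⟩
    obtain ⟨hf', h2⟩ := isMul_e0 hm hF hB hT h f hf
    rw [he h f hf, h2, he h _ hf']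
  have hS : ∀ T ∈ Translations μ e, T ∈ Shifts μ Γ := by
    rintro T ⟨g, hT⟩
    obtain ⟨T', hT'⟩ := exists_shift μ Γ g
    have h1 : T = T' := by
      refine model_ext fun k f hf => ?_
      rw [isShift_e0 hT' k f hf, ← he k f hf, hT k f hf, he _ f hf]
    rw [h1]
    exact ⟨g, hT'⟩
  have hS' : ∀ T ∈ Shifts μ Γ, T ∈ Translations μ e := by
    rintro T ⟨g, hT⟩
    exact ⟨g, fun h f hf => by rw [he h f hf, isShift_e0 hT h f hf, he _ f hf]⟩
  have hs : ∀ a ∈ LInfty μ e ∪ Translations μ e, star a ∈ LInfty μ e ∪ Translations μ e := by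
    rintro a (ha | ha)
    · exact Or.inl (hL' _ (Linf_star μ Γ hm a (hL a ha)))
    · obtain ⟨g, hg⟩ := hS a ha
      exact Or.inr (hS' _ ⟨g⁻¹, (shift_star μ Γ hg).1⟩)
  exact ⟨subset_dcV hs, fun M' h => dcV_le hs M' h⟩

end bridge

/-- **Kadison-Kastler stability of crossed products.** -/
theorem result : ∃ δ : ℝ, 0 < δ ∧
    ∀ (X : Type) [MeasurableSpace X] (μ : Measure X) [IsProbabilityMeasure μ]
      (Γ : Type) [Group Γ] [MulAction Γ X],
      (∀ g : Γ, MeasurePreserving (fun x : X => g • x) μ μ) →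
    ∀ (K : Type) [NormedAddCommGroup K] [InnerProductSpace ℂ K] [CompleteSpace K]
      (e : Γ → (X → ℂ) → K) (M₀ : VonNeumannAlgebra K),
      IsRegularSpace μ e → IsCrossedProduct μ e M₀ → IsMaximalAbelian (LInfty μ e) M₀ →
    ∀ (H : Type) [NormedAddCommGroup H] [InnerProductSpace ℂ H] [CompleteSpace H]
      (M N : VonNeumannAlgebra H),
      StarIsomorphic M₀ M → IsII1Factor M → IsII1Factor N → kkDist M N < δ →
      StarIsomorphic M N := by
  obtain ⟨δ, hδ, hmain⟩ := Pool.Agent.H256.KS.main_iso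
  refine ⟨δ, hδ, ?_⟩
  intro X _ μ _ Γ _ _ hm K _ _ _ e M₀ hreg hcr hmasa H _ _ _ M N hΦ hM hN hd
  obtain ⟨Φ⟩ := hΦ
  obtain ⟨ξ, s1, s2, s3, s4⟩ := hM.trace
  obtain ⟨ξ', t1, t2, t3, t4⟩ := hN.trace
  have FM : Pool.Agent.TH254.CC.Fn M ξ := ⟨hM.factor, hM.infinite, s1, s2, s3, s4⟩
  have FN : Pool.Agent.TH254.CC.Fn N ξ' := ⟨hN.factor, hN.infinite, t1, t2, t3, t4⟩
  obtain ⟨A, U, a1, a2, a3, a4, a5, a6, a7, a8⟩ :=
    Pool.Agent.H256.KS.model_assem hm e hreg.inner_same hreg.inner_ne hreg.total (LInfty μ e)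
      (Translations μ e) (fun _ => Iff.rfl) (fun _ => Iff.rfl) M₀ hcr.1 hcr.2 hmasa M ξ FM Φ
  have hd' : kkDist N M < δ := by
    unfold kkDist at hd ⊢
    rwa [Metric.hausdorffDist_comm]
  exact hmain H M N A ξ ξ' FM FN (near_of_dist hd) (near_of_dist hd') a1 a2 a3 Γ U a4 a5 a6 a7 a8

end Pool.Agent.Results.MP_5c1ef7_an.CrossedProductStability
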